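import Pool.Agent.MVO.StmtsG

/-!
# Squad MVO, row SEQ (helper6): congruences without `xy = yx` keep the order of the simple letters
-/

set_option autoImplicit false

namespace Pool.Agent.MVO.H6

open Pool.Agent.Helper14_MV Pool.Agent.Helper2_MV Pool.Agent.MVO

theorem seps_pairwise (k : ℕ) : (seps k).Pairwise (· < ·) := by
  unfold seps
  exact List.pairwise_lt_range'

/-- A nodup list with the members `a ≠ b` is a permutation of `[b, a]`. -/
theorem perm_pair {l : List ℕ} (hl : l.Nodup) {a b : ℕ} (hab : a ≠ b)
    (hm : ∀ c, c ∈ l ↔ c = a ∨ c = b) : l.Perm [b, a] := by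
  refine (List.perm_ext_iff_of_nodup hl ?_).2 ?_
  · simp [hab.symm]
  · intro c
    rw [hm c]
    simp [or_comm]

/-- One step, the order of the simple letters. -/
theorem seps_keep {θ : FIC} (hθ : NC2 θ) {k : ℕ} {l : List ℕ} (hp : (seps k).Perm l)
    (hr : RR θ (seps k) l) : l = seps k := by
  have hnd : l.Nodup := hp.nodup_iff.1 (nodup_seps k)
  have hpw : l.Pairwise (· < ·) := by
    refine List.pairwise_of_forall_sublist ?_
    intro a b hab
    by_contra hlt
    have hndab : [a, b].Nodup := hnd.sublist hab
    have hne : a ≠ b := by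
      intro h
      rw [h] at hndab
      simp at hndab
    have hba : b < a := by omega
    have ha : a ∈ l := hab.subset (by simp)
    have hb : b ∈ l := hab.subset (by simp)
    set p : ℕ → Bool := fun c => decide (c = a ∨ c = b) with hpdef
    -- the restriction of `l`
    have h1 : l.filter p = [a, b] := by
      have hs : [a, b].Sublist (l.filter p) := by
        have h2 := hab.filter p
        have h3 : [a, b].filter p = [a, b] := by
          simp [hpdef]
        rwa [h3] at h2
      refine (hs.eq_of_length ?_).symm
      have h4 : (l.filter p).Perm [b, a] := by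
        refine perm_pair (hnd.filter _) hne ?_
        intro c
        rw [List.mem_filter, hpdef, decide_eq_true_iff]
        constructor
        · exact fun h => h.2
        · rintro (h | h)
          · subst h; exact ⟨ha, Or.inl rfl⟩
          · subst h; exact ⟨hb, Or.inr rfl⟩
      rw [h4.length_eq]
      rfl
    -- the restriction of `seps k`
    have h5 : (seps k).filter p = [b, a] := by
      have h6 : ((seps k).filter p).Perm [b, a] := by
        refine perm_pair ((nodup_seps k).filter _) hne ?_
        intro c
        rw [List.mem_filter, hpdef, decide_eq_true_iff]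
        constructor
        · exact fun h => h.2
        · rintro (h | h)
          · subst h; exact ⟨hp.mem_iff.2 ha, Or.inl rfl⟩
          · subst h; exact ⟨hp.mem_iff.2 hb, Or.inr rfl⟩
      refine List.Perm.eq_of_pairwise (le := (· < ·)) ?_ ((seps_pairwise k).filter _) ?_ h6
      · intro x y _ _ h7 h8
        exact absurd h7 (Nat.lt_asymm h8)
      · simp [hba]
    have h9 := (hr.filter p).sub (fun c => if c = b then [0] else [1])
    rw [h1, h5] at h9
    apply hθ
    simpa [hne] using h9
  refine List.Perm.eq_of_pairwise (le := (· < ·)) ?_ hpw (seps_pairwise k) hp.symm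
  intro x y _ _ h7 h8
  exact absurd h7 (Nat.lt_asymm h8)

/-- One step. -/
theorem step {θ : FIC} (hθ : NC2 θ) {k : ℕ} {B : ℕ → List ℕ} (hB : BlkOk k B) {w : List ℕ}
    (hbal : Bal (asm k B) w) (hr : RR θ (asm k B) w) :
    ∃ B' : ℕ → List ℕ, w = asm k B' ∧ BlkOk k B' ∧
      ∀ c, deg k (fun j => (B j).count c) = deg k (fun j => (B' j).count c) := by
  have hperm : (asm k B).Perm w := List.perm_iff_count.2 hbal
  set p : ℕ → Bool := fun c => decide (2 ≤ c ∧ c ≤ k + 1) with hpdef
  have h1 : (asm k B).filter p = seps k := filter_sep hB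
  have h2 : (seps k).Perm (w.filter p) := h1 ▸ hperm.filter p
  have h3 : RR θ (seps k) (w.filter p) := h1 ▸ hr.filter p
  obtain ⟨B', hB', hw⟩ := dec (seps_keep hθ h2 h3)
  have hB'' : BlkOk k B' := fun j _ c hc => hB' j c hc
  refine ⟨B', hw, hB'', ?_⟩
  intro c
  by_cases hc : NS k c
  · rw [← count_asm hc, ← count_asm hc, ← hw]
    exact hbal c
  · have h0 : ∀ C : ℕ → List ℕ, BlkOk k C → deg k (fun j => (C j).count c) = 0 := by
      intro C hC
      unfold deg
      refine Finset.sum_eq_zero fun j hj => ?_
      rw [Finset.mem_range] at hj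
      refine List.count_eq_zero.2 ?_
      intro hmem
      exact hc (hC j (by omega) c hmem)
    rw [h0 B hB, h0 B' hB'']

theorem seq : SeqStmt := by
  intro ρ σ hρ hσ k B v hB hch
  induction hch with
  | refl => exact ⟨B, rfl, hB, fun _ => rfl, Relation.ReflTransGen.refl⟩
  | @tail w1 w2 _ hst ih =>
    obtain ⟨B', hw, hB', hdeg, hch'⟩ := ih
    subst hw
    obtain ⟨hbal, hrr⟩ := hst
    have key : ∃ B'' : ℕ → List ℕ, w2 = asm k B'' ∧ BlkOk k B'' ∧
        ∀ c, deg k (fun j => (B' j).count c) = deg k (fun j => (B'' j).count c) := by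
      rcases hrr with h | h
      · exact step hρ hB' hbal h
      · exact step hσ hB' hbal h
    obtain ⟨B'', hw', hB'', hdeg'⟩ := key
    subst hw'
    exact ⟨B'', rfl, hB'', fun c => (hdeg c).trans (hdeg' c),
      hch'.tail ⟨hB', hB'', hdeg', hrr⟩⟩

end Pool.Agent.MVO.H6
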