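import Pool.Agent.MVO.StmtsA

/-!
# Squad MVO, row SFA (helper6): sufficiency for class a
-/

set_option autoImplicit false

namespace Pool.Agent.MVO.H6

open Pool.Agent.Helper14_MV Pool.Agent.Helper2_MV Pool.Agent.MVO

theorem sfa (hSUF : SufStmt) (hOLW : OlwStmt) (hWUW : WuwStmt) (hGAA : GaaStmt)
    (hRGA : RgaStmt) (hSWA : SwaStmt) (hTAA : TaaStmt) (hTAB : TabStmt) (hTAC : TacStmt)
    (hTAD : TadStmt) : SfaStmt := by
  rintro β hA ⟨hR0, hC, hO⟩
  have hOO : OO β := by
    rcases hO with h | h | h | h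
    · exact Or.inl h.1
    · exact Or.inr (Or.inl h.1)
    · exact Or.inr (Or.inr (Or.inl h))
    · exact Or.inr (Or.inr (Or.inr h))
  have hT : Tight β := by
    rcases hO with h | h | h | h
    · exact hTAA β hA hR0 h.1 h.2
    · exact hTAB β hA hR0 h.1 h.2
    · exact hTAC β hA hR0 h
    · exact hTAD β hA hR0 h
  have hG := hGAA β hA
  exact hSUF β hG (hRGA β hA) (hSWA β hA) hT (hOLW β hOO) (hWUW β hOO hC hG)

end Pool.Agent.MVO.H6
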